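import Pool.Agent.helper29.PQ.Spec

/-!
# MP_56fc12_nt, row pq:A2: the mean value of `h ^ 2`
-/

namespace Pool.Agent.helper29.PQ

open Finset Pool.Agent.helper35.LinPrimes

theorem A2 : A2_stmt := by
  refine ⟨Real.exp 6, Real.exp_pos 6, fun H => ?_⟩
  classical
  have h1 : ∑ b ∈ Ioc 0 H, h b ^ 2
      ≤ ∑ b ∈ Ioc 0 H, ∑ T ∈ (Nat.primesLE H).powerset,
        if (∏ l ∈ T, l) ∣ b then (∏ l ∈ T, (6 / (l : ℝ))) else 0 := by
    refine sum_le_sum fun b hb => ?_
    rw [mem_Ioc] at hb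
    calc h b ^ 2 ≤ ∑ T ∈ b.primeFactors.powerset, ∏ l ∈ T, (6 / (l : ℝ)) := h_sq_le b
      _ ≤ ∑ T ∈ b.primeFactors.powerset,
            if (∏ l ∈ T, l) ∣ b then (∏ l ∈ T, (6 / (l : ℝ))) else 0 := by
          refine sum_le_sum fun T hT => ?_
          rw [mem_powerset] at hT
          rw [if_pos]
          refine Finset.prod_primes_dvd b (fun l hl => ?_) (fun l hl => ?_)
          · exact (Nat.prime_of_mem_primeFactors (hT hl)).prime
          · exact Nat.dvd_of_mem_primeFactors (hT hl)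
      _ ≤ _ := by
          refine sum_le_sum_of_subset_of_nonneg ?_ (fun T _ _ => ?_)
          · refine powerset_mono.mpr fun l hl => ?_
            rw [Nat.mem_primesLE]
            exact ⟨(Nat.le_of_dvd (by omega) (Nat.dvd_of_mem_primeFactors hl)).trans hb.2,
              Nat.prime_of_mem_primeFactors hl⟩
          · split_ifs
            · positivity
            · exact le_rfl
  refine h1.trans ?_
  rw [sum_comm]
  have h2 : ∀ T ∈ (Nat.primesLE H).powerset, (∑ b ∈ Ioc 0 H,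
      if (∏ l ∈ T, l) ∣ b then (∏ l ∈ T, (6 / (l : ℝ))) else 0)
      ≤ (∏ l ∈ T, (6 / (l : ℝ) ^ 2)) * H := by
    intro T hT
    rw [mem_powerset] at hT
    have hpos : 0 < ∏ l ∈ T, l := prod_pos fun l hl => (Nat.mem_primesLE.mp (hT hl)).2.pos
    rw [← sum_filter, sum_const, nsmul_eq_mul]
    have hc : #{b ∈ Ioc 0 H | (∏ l ∈ T, l) ∣ b} = H / (∏ l ∈ T, l) :=
      Nat.Ioc_filter_dvd_card_eq_div H _
    rw [hc]
    have h3 : ((H / (∏ l ∈ T, l) : ℕ) : ℝ) ≤ (H : ℝ) / ((∏ l ∈ T, l : ℕ) : ℝ) := Nat.cast_div_le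
    have h4 : 0 ≤ ∏ l ∈ T, (6 / (l : ℝ)) := prod_nonneg fun l _ => by positivity
    refine (mul_le_mul_of_nonneg_right h3 h4).trans (le_of_eq ?_)
    have h5 : (∏ l ∈ T, (6 / (l : ℝ) ^ 2)) = (∏ l ∈ T, (6 / (l : ℝ))) / ((∏ l ∈ T, l : ℕ) : ℝ) := by
      push_cast
      rw [← prod_div_distrib]
      refine prod_congr rfl fun l _ => ?_
      rw [pow_two, div_div]
    rw [h5]
    ring
  refine (sum_le_sum h2).trans ?_
  rw [← sum_mul, ← Finset.prod_one_add]
  refine mul_le_mul_of_nonneg_right ?_ (Nat.cast_nonneg H)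
  calc ∏ l ∈ Nat.primesLE H, (1 + 6 / (l : ℝ) ^ 2)
      ≤ ∏ l ∈ Nat.primesLE H, Real.exp (6 * (1 / (l : ℝ) ^ 2)) := by
        refine prod_le_prod (fun l _ => by positivity) fun l _ => ?_
        have := Real.add_one_le_exp (6 * (1 / (l : ℝ) ^ 2))
        have e : 6 / (l : ℝ) ^ 2 = 6 * (1 / (l : ℝ) ^ 2) := by ring
        rw [e]; linarith
    _ = Real.exp (6 * ∑ l ∈ Nat.primesLE H, 1 / (l : ℝ) ^ 2) := by
        rw [mul_sum, Real.exp_sum]
    _ ≤ Real.exp 6 := by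
        rw [Real.exp_le_exp]
        have := sum_inv_sq_primes H
        linarith

end Pool.Agent.helper29.PQ
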